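import Pool.Agent.L0h89.CL.LOW

/-! Module LOW2 of the project CL: the lower bound of the density, without a divisibility condition. -/

set_option autoImplicit false

namespace Pool.Agent.L0h89.CL
open Finset Filter
open Pool.Agent.L0h42.TB
open Pool.Agent.H373R2.T7
open Pool.Agent.L0h42.CL

lemma nuq_le2 {k : ℕ} (hk : 1 ≤ k) (a0 b0 : ℤ) (h : Fin k → ℕ) (p a : ℕ) (hp : p.Prime)
    (hne : ∃ t : ℤ, ∀ l, ¬ (p : ℤ) ∣ a + gz a0 b0 (t + h l)) : nuq a0 b0 h p a ≤ 2 * k := by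
  obtain ⟨t, ht⟩ := hne
  exact nuq_le a0 b0 h p a hp ⟨_, ht ⟨0, hk⟩⟩

lemma nuq_lt2 {k : ℕ} (a0 b0 : ℤ) (h : Fin k → ℕ) (p a : ℕ) (hp : p.Prime)
    (hne : ∃ t : ℤ, ∀ l, ¬ (p : ℤ) ∣ a + gz a0 b0 (t + h l)) : nuq a0 b0 h p a + 1 ≤ p := by
  classical
  unfold nuq
  obtain ⟨t, ht⟩ := hne
  have hp0 : (0 : ℤ) < p := by exact_mod_cast hp.pos
  have h0 : 0 ≤ t % p := Int.emod_nonneg _ hp0.ne'
  have h1 : t % p < p := Int.emod_lt_of_pos _ hp0
  have h2 : (t % p).toNat ∈ range p := by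
    rw [mem_range]
    omega
  have h3 : (range p).filter (fun τ : ℕ => Som (cq a0 b0 h τ) p a) ⊂ range p := by
    rw [filter_ssubset]
    refine ⟨(t % p).toNat, h2, ?_⟩
    rintro ⟨l, hl⟩
    apply ht l
    unfold cq at hl
    rw [sub_neg_eq_add, Int.toNat_of_nonneg h0] at hl
    have h4 : (p : ℤ) ∣ (t + h l) - (t % p + h l) := by
      have h5 : (t + h l) - (t % p + h l) = p * (t / p) := by
        have := Int.emod_add_mul_ediv t p
        linear_combination -this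
      rw [h5]
      exact dvd_mul_right _ _
    have h6 := gz_mod a0 b0 _ _ _ h4
    have h7 : (a : ℤ) + gz a0 b0 (t + h l) =
        ((a : ℤ) + gz a0 b0 (t % p + h l)) + (gz a0 b0 (t + h l) - gz a0 b0 (t % p + h l)) := by
      ring
    rw [h7]
    exact dvd_add hl h6
  have h8 := card_lt_card h3
  rw [card_range] at h8
  exact h8

/-- one factor -/
lemma fac_small2 {k : ℕ} (a0 b0 : ℤ) (h : Fin k → ℕ) (p a : ℕ) (hp : p.Prime)
    (h1 : nuq a0 b0 h p a + 1 ≤ p) :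
    (1 : ℝ) / p ≤ 1 - (nuq a0 b0 h p a : ℝ) / p := by
  have hp0 : (0 : ℝ) < p := by exact_mod_cast hp.pos
  rw [div_le_iff₀ hp0, sub_mul, div_mul_cancel₀ _ hp0.ne', one_mul]
  have : ((nuq a0 b0 h p a : ℕ) : ℝ) + 1 ≤ p := by exact_mod_cast h1
  linarith

lemma fac_big2 {k : ℕ} (a0 b0 : ℤ) (h : Fin k → ℕ) (p a : ℕ) (hp : p.Prime) (hk : 4 * k < p)
    (h1 : nuq a0 b0 h p a ≤ 2 * k) :
    Real.exp (-(4 * k * ((1 : ℝ) / p))) ≤ 1 - (nuq a0 b0 h p a : ℝ) / p := by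
  have hp0 : (0 : ℝ) < p := by exact_mod_cast hp.pos
  have h2 : (nuq a0 b0 h p a : ℝ) / p ≤ 2 * k / p := by
    gcongr
    exact_mod_cast h1
  have h3 : (2 * k : ℝ) / p ≤ 1 / 2 := by
    rw [div_le_iff₀ hp0]
    have : (4 * k : ℝ) < p := by exact_mod_cast hk
    linarith
  have h4 : (0 : ℝ) ≤ 2 * k / p := by positivity
  -- `exp (-2 x) ≤ 1 - x` for `0 ≤ x ≤ 1/2`
  have h5 : Real.exp (-(4 * k * ((1 : ℝ) / p))) ≤ 1 - 2 * k / p := by
    set x : ℝ := 2 * k / p with hx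
    have h6 : 4 * k * ((1 : ℝ) / p) = 2 * x := by rw [hx]; ring
    rw [h6]
    have h7 : 0 < 1 - x := by linarith
    rw [Real.exp_neg, inv_le_comm₀ (Real.exp_pos _) h7]
    have h8 : 1 + 2 * x ≤ Real.exp (2 * x) := by
      have := Real.add_one_le_exp (2 * x)
      linarith
    refine le_trans ?_ h8
    rw [inv_le_iff_one_le_mul₀ h7]
    nlinarith
  linarith

/-- the product -/
lemma Vq_low2 {k : ℕ} (hk : 1 ≤ k) (a0 b0 : ℤ) (h : Fin k → ℕ) (z a : ℕ)
    (hlt : ∀ p : ℕ, p.Prime → nuq a0 b0 h p a + 1 ≤ p)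
    (hle : ∀ p : ℕ, p.Prime → nuq a0 b0 h p a ≤ 2 * k) :
    (1 / (4 * k : ℝ)) ^ (4 * k) * Real.exp (-(4 * k * ∑ p ∈ pz z, (1 : ℝ) / p)) ≤
      Vq a0 b0 h z a := by
  classical
  have hpz : ∀ p ∈ pz z, p.Prime := fun p hp => by
    unfold pz at hp
    exact (mem_filter.1 hp).2
  have hk1 : (1 : ℝ) ≤ k := by exact_mod_cast hk
  have hc0 : (0 : ℝ) < 1 / (4 * k) := by positivity
  have hc1 : (1 : ℝ) / (4 * k) ≤ 1 := by
    rw [div_le_one (by positivity)]
    linarith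
  unfold Vq
  rw [mul_sum, ← sum_neg_distrib, Real.exp_sum,
    ← prod_filter_mul_prod_filter_not (pz z) (fun p => p ≤ 4 * k)
      (fun p => (1 : ℝ) - (nuq a0 b0 h p a : ℝ) / p),
    ← prod_filter_mul_prod_filter_not (pz z) (fun p => p ≤ 4 * k)
      (fun p => Real.exp (-(4 * k * ((1 : ℝ) / p)))), ← mul_assoc]
  have hexp1 : ∀ s : Finset ℕ, ∏ p ∈ s, Real.exp (-(4 * k * ((1 : ℝ) / p))) ≤ 1 := by
    intro s
    refine prod_le_one (fun p _ => (Real.exp_pos _).le) fun p _ => ?_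
    rw [Real.exp_le_one_iff]
    have : (0 : ℝ) ≤ 4 * k * (1 / p) := by positivity
    linarith
  refine mul_le_mul ?_ ?_ (prod_nonneg fun _ _ => (Real.exp_pos _).le) ?_
  · -- the small primes
    have h1 : (1 / (4 * k : ℝ)) ^ (4 * k) ≤
        ∏ p ∈ (pz z).filter (fun p => p ≤ 4 * k), (1 / (4 * k : ℝ)) := by
      rw [prod_const]
      refine pow_le_pow_of_le_one hc0.le hc1 ?_
      have h2 : (pz z).filter (fun p => p ≤ 4 * k) ⊆ Icc 1 (4 * k) := by
        intro p hp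
        rw [mem_filter] at hp
        rw [mem_Icc]
        exact ⟨(hpz p hp.1).one_lt.le, hp.2⟩
      have := card_le_card h2
      simpa using this
    have h2 : ∏ p ∈ (pz z).filter (fun p => p ≤ 4 * k), (1 / (4 * k : ℝ)) ≤
        ∏ p ∈ (pz z).filter (fun p => p ≤ 4 * k), (1 - (nuq a0 b0 h p a : ℝ) / p) := by
      refine prod_le_prod (fun _ _ => hc0.le) fun p hp => ?_
      rw [mem_filter] at hp
      have hp1 := hpz p hp.1
      refine le_trans ?_ (fac_small2 a0 b0 h p a hp1 (hlt p hp1))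
      have hp0 : (0 : ℝ) < p := by exact_mod_cast hp1.pos
      have : (p : ℝ) ≤ 4 * k := by exact_mod_cast hp.2
      gcongr
    calc (1 / (4 * k : ℝ)) ^ (4 * k) *
          ∏ p ∈ (pz z).filter (fun p => p ≤ 4 * k), Real.exp (-(4 * k * ((1 : ℝ) / p)))
        ≤ (1 / (4 * k : ℝ)) ^ (4 * k) * 1 :=
          mul_le_mul_of_nonneg_left (hexp1 _) (by positivity)
      _ = (1 / (4 * k : ℝ)) ^ (4 * k) := mul_one _
      _ ≤ _ := h1.trans h2
  · refine prod_le_prod (fun _ _ => (Real.exp_pos _).le) fun p hp => ?_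
    rw [mem_filter] at hp
    have hp1 := hpz p hp.1
    exact fac_big2 a0 b0 h p a hp1 (by omega) (hle p hp1)
  · refine prod_nonneg fun p hp => ?_
    rw [mem_filter] at hp
    have hp1 := hpz p hp.1
    refine le_trans ?_ (fac_small2 a0 b0 h p a hp1 (hlt p hp1))
    positivity

theorem t_LOW2 : ∀ k E : ℕ, 1 ≤ k → ∃ N0 : ℕ, ∀ N : ℕ, N0 ≤ N → ∀ z : ℕ,
    (z : ℝ) ≤ Real.log N ^ E → ∀ (a0 b0 : ℤ) (h : Fin k → ℕ), ∀ a : ℕ,
    (∀ p : ℕ, p.Prime → ∃ t : ℤ, ∀ l, ¬ (p : ℤ) ∣ a + gz a0 b0 (t + h l)) →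
    1 / Real.log N ≤ Vq a0 b0 h z a := by
  intro k E hk
  obtain ⟨C, hC⟩ := Pool.Agent.Helper256.KM.mertens_inv
  have hk1 : (1 : ℝ) ≤ k := by exact_mod_cast hk
  -- the constants
  set c : ℝ := (1 / (4 * k : ℝ)) ^ (4 * k) * Real.exp (-(4 * k * C)) * (1 / ((E : ℝ) + 2)) ^ (4 * k)
    with hc
  have hc0 : 0 < c := by positivity
  -- `(log log N)^{4k} / log N → 0`
  have hlim : Tendsto (fun x : ℝ => Real.log x ^ (4 * k) / x) atTop (nhds 0) :=
    Real.tendsto_pow_log_div_mul_add_atTop 1 0 (4 * k) one_ne_zero |>.congr (by intro x; simp)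
  have hL : Tendsto (fun N : ℕ => Real.log N) atTop atTop :=
    Real.tendsto_log_atTop.comp tendsto_natCast_atTop_atTop
  have hLL : Tendsto (fun N : ℕ => Real.log (Real.log N)) atTop atTop :=
    Real.tendsto_log_atTop.comp hL
  have hev := (hlim.comp hL).eventually (Iio_mem_nhds hc0)
  obtain ⟨N0, hN0⟩ := eventually_atTop.1
    (hev.and ((hL.eventually (eventually_ge_atTop 3)).and (hLL.eventually (eventually_ge_atTop 2))))
  refine ⟨N0, fun N hN z hz a0 b0 h a hne => ?_⟩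
  obtain ⟨h1, h2, h3⟩ := hN0 N hN
  simp only [Function.comp] at h1
  set L := Real.log N with hLdef
  have hLpos : 0 < L := by linarith
  -- the comparison point
  set Z : ℕ := ⌈L ^ (E + 1)⌉₊ with hZ
  have hL1 : 1 ≤ L := by linarith
  have hZL : L ^ (E + 1) ≤ Z := Nat.le_ceil _
  have hZ3 : 3 ≤ Z := by
    have h4 : L ≤ L ^ (E + 1) := le_self_pow₀ hL1 (by omega)
    have h5 : (3 : ℝ) ≤ Z := by linarith
    exact_mod_cast h5
  have hzZ : z ≤ Z := by
    have h4 : (z : ℝ) ≤ Z := hz.trans ((pow_le_pow_right₀ hL1 (by omega)).trans hZL)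
    exact_mod_cast h4
  have hM := hC Z hZ3
  rw [abs_le] at hM
  have hsum : ∑ p ∈ pz z, (1 : ℝ) / p ≤ Real.log (Real.log Z) + C := by
    refine le_trans ?_ (by linarith [hM.2] :
      ∑ p ∈ (Finset.Icc 1 Z).filter Nat.Prime, (1 : ℝ) / p ≤ Real.log (Real.log Z) + C)
    refine sum_le_sum_of_subset_of_nonneg ?_ fun _ _ _ => by positivity
    intro p hp
    unfold pz at hp
    rw [mem_filter, mem_Icc] at hp ⊢
    exact ⟨⟨hp.1.1, hp.1.2.trans hzZ⟩, hp.2⟩
  have hZr : (0 : ℝ) < Z := by exact_mod_cast (by omega : 0 < Z)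
  -- `log Z ≤ (E + 2) log L`, crude: `Z ≤ 2 L^(E+1) ≤ L^(E+2)`
  have hZup : (Z : ℝ) ≤ L ^ (E + 2) := by
    have h4 : (Z : ℝ) < L ^ (E + 1) + 1 := Nat.ceil_lt_add_one (by positivity)
    have h5 : (1 : ℝ) ≤ L ^ (E + 1) := one_le_pow₀ hL1
    calc (Z : ℝ) ≤ L ^ (E + 1) + 1 := h4.le
      _ ≤ L ^ (E + 1) * L := by nlinarith
      _ = L ^ (E + 2) := by rw [← pow_succ]
  have hlogZ : Real.log Z ≤ (E + 2) * Real.log L := by
    have h4 := Real.log_le_log hZr hZup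
    rw [Real.log_pow] at h4
    push_cast at h4
    exact h4
  have hZ1 : 1 < Real.log Z := by
    rw [Real.lt_log_iff_exp_lt hZr]
    have h4 : (3 : ℝ) ≤ Z := by exact_mod_cast hZ3
    have := Real.exp_one_lt_d9
    linarith
  have hx0 : 0 < Real.log Z := by linarith
  have hlL : 0 < Real.log L := by linarith
  have hexp : Real.exp (-(4 * k * C)) * (1 / (((E : ℝ) + 2) * Real.log L)) ^ (4 * k) ≤
      Real.exp (-(4 * k * ∑ p ∈ pz z, (1 : ℝ) / p)) := by
    have h4 : Real.exp (-(4 * k * (Real.log (Real.log Z) + C))) ≤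
        Real.exp (-(4 * k * ∑ p ∈ pz z, (1 : ℝ) / p)) := by
      apply Real.exp_le_exp.2
      have : 4 * (k : ℝ) * ∑ p ∈ pz z, (1 : ℝ) / p ≤ 4 * k * (Real.log (Real.log Z) + C) :=
        mul_le_mul_of_nonneg_left hsum (by positivity)
      linarith
    refine le_trans ?_ h4
    have h5 : Real.exp (-(4 * k * (Real.log (Real.log Z) + C))) =
        Real.exp (-(4 * k * C)) * (1 / Real.log Z) ^ (4 * k) := by
      have h6 : (1 / Real.log Z) ^ (4 * k) = Real.exp (-(4 * k * Real.log (Real.log Z))) := by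
        have h7 : 1 / Real.log Z = Real.exp (-Real.log (Real.log Z)) := by
          rw [Real.exp_neg, Real.exp_log hx0, one_div]
        rw [h7, ← Real.exp_nat_mul]
        congr 1
        push_cast
        ring
      rw [h6, ← Real.exp_add]
      congr 1
      ring
    rw [h5]
    gcongr
  have hlow := Vq_low2 hk a0 b0 h z a (fun p hp => nuq_lt2 a0 b0 h p a hp (hne p hp))
    (fun p hp => nuq_le2 hk a0 b0 h p a hp (hne p hp))
  refine le_trans ?_ hlow
  have hfin : 1 / L ≤ c / Real.log L ^ (4 * k) := by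
    rw [div_le_div_iff₀ hLpos (by positivity)]
    rw [div_lt_iff₀ hLpos] at h1
    linarith
  refine hfin.trans ?_
  have hceq : c / Real.log L ^ (4 * k) = (1 / (4 * k : ℝ)) ^ (4 * k) *
      (Real.exp (-(4 * k * C)) * (1 / (((E : ℝ) + 2) * Real.log L)) ^ (4 * k)) := by
    rw [hc, one_div (((E : ℝ) + 2) * Real.log L), mul_inv, mul_pow, one_div ((E : ℝ) + 2)]
    rw [div_eq_mul_inv, ← inv_pow (Real.log L)]
    ring
  rw [hceq]
  exact mul_le_mul_of_nonneg_left hexp (by positivity)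

end Pool.Agent.L0h89.CL
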