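import Pool.Agent.L0h42.CL.Stm
import Pool.Agent.L0h42.TB.B13

/-! Module M4q of the project CL: the fourth moment of the divisor sums. -/

set_option autoImplicit false

namespace Pool.Agent.L0h89.CL
open Finset
open Pool.Agent.L0h42.TB
open Pool.Agent.L0h42.CL

theorem t_M4q : S_M4q := by
  intro k hk a0 b0 h z R X N t Λ V hV hΛ hg
  obtain ⟨g, hc, hX⟩ : ∃ g : Fin k → ℕ, cq a0 b0 h t = cneg g ∧ ∀ l, X + g l ≤ N := by
    refine ⟨fun l => (gz a0 b0 (t + h l)).toNat, ?_, ?_⟩
    · funext l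
      unfold cq cneg
      rw [Int.toNat_of_nonneg (hg l).1]
    · intro l
      have h1 := hg l
      show X + (gz a0 b0 (t + h l)).toNat ≤ N
      omega
  rw [hc]
  have h1 : ∀ b ∈ Icc 1 X, SS z R Λ (cneg g) b ^ 4 ≤
      V ^ 4 * ∑ l, ((b + g l).divisors.card : ℝ) ^ (4 * k) := by
    intro b hb
    rw [mem_Icc] at hb
    have h2 := SS_abs z R Λ V hV hΛ g b hb.1
    calc SS z R Λ (cneg g) b ^ 4 = |SS z R Λ (cneg g) b| ^ 4 := (Even.pow_abs (by decide) _).symm
      _ ≤ (V * ∏ l, ((b + g l).divisors.card : ℝ)) ^ 4 := pow_le_pow_left₀ (abs_nonneg _) h2 4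
      _ = V ^ 4 * ∏ l, ((b + g l).divisors.card : ℝ) ^ 4 := by rw [mul_pow, ← prod_pow]
      _ ≤ V ^ 4 * ∑ l, (((b + g l).divisors.card : ℝ) ^ 4) ^ k :=
          mul_le_mul_of_nonneg_left (prod_le_sum_pow hk _ (fun l => by positivity)) (by positivity)
      _ = _ := by simp only [← pow_mul]
  refine (sum_le_sum h1).trans ?_
  rw [← mul_sum, sum_comm]
  apply mul_le_mul_of_nonneg_left _ (by positivity)
  have h2 : ∀ l ∈ (univ : Finset (Fin k)), ∑ b ∈ Icc 1 X, ((b + g l).divisors.card : ℝ) ^ (4 * k) ≤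
      N * (1 + Real.log N) ^ (2 ^ (4 * k)) := by
    intro l _
    refine le_trans ?_ (tau_pow (4 * k) N)
    have hl := hX l
    apply sum_inj_le _ _ (fun b => b + g l)
    · intro b hb
      rw [mem_Icc] at hb ⊢
      omega
    · intro b _ b' _ hbb
      simp only at hbb
      omega
    · intro y _; positivity
    · intro b _; exact le_rfl
  refine (sum_le_sum h2).trans (le_of_eq ?_)
  rw [sum_const, card_univ, Fintype.card_fin, nsmul_eq_mul]

end Pool.Agent.L0h89.CL
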