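import Pool.Agent.L0h42.CL.Stm

/-! Module WY of the project CL: Weyl differencing along a progression. -/

set_option autoImplicit false

namespace Pool.Agent.L0h89.CL
open Finset
open Pool.Agent.H807R2.Dav
open Pool.Agent.L0h42.CL

/-! ### van der Corput's identity -/

lemma vdc (z : ℕ → ℂ) (hz : ∀ i, ‖z i‖ = 1) (n : ℕ) :
    ‖∑ i ∈ range n, z i‖ ^ 2 = n +
      2 * (∑ j ∈ range n, ∑ i ∈ range (n - (j + 1)),
        z (i + (j + 1)) * (starRingEnd ℂ) (z i)).re := by
  induction n with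
  | zero => simp
  | succ n ih =>
    rw [sum_range_succ, Complex.sq_norm, Complex.normSq_add, ← Complex.sq_norm, ← Complex.sq_norm,
      ih, hz n]
    have h1 : ∑ j ∈ range (n + 1), ∑ i ∈ range (n + 1 - (j + 1)),
          z (i + (j + 1)) * (starRingEnd ℂ) (z i) =
        ∑ j ∈ range n, ∑ i ∈ range (n - (j + 1)), z (i + (j + 1)) * (starRingEnd ℂ) (z i) +
          z n * (starRingEnd ℂ) (∑ i ∈ range n, z i) := by
      rw [sum_range_succ, Nat.sub_self, range_zero, sum_empty, add_zero, map_sum, mul_sum,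
        ← sum_range_reflect (fun i => z n * (starRingEnd ℂ) (z i)) n, ← sum_add_distrib]
      refine sum_congr rfl fun j hj => ?_
      rw [mem_range] at hj
      have h2 : n + 1 - (j + 1) = (n - (j + 1)) + 1 := by omega
      have h3 : n - (j + 1) + (j + 1) = n := by omega
      have h4 : n - 1 - j = n - (j + 1) := by omega
      rw [h2, sum_range_succ, h3, h4]
    rw [h1, Complex.add_re]
    have h5 : ((∑ i ∈ range n, z i) * (starRingEnd ℂ) (z n)).re =
        (z n * (starRingEnd ℂ) (∑ i ∈ range n, z i)).re := by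
      rw [← Complex.conj_re, map_mul, Complex.conj_conj, mul_comm]
    rw [h5]
    push_cast
    ring

/-! ### geometric sums -/

lemma nd_nonneg (x : ℝ) : 0 ≤ nd x := abs_nonneg _

lemma mn_nonneg (V : ℕ) (x : ℝ) : 0 ≤ mn V x := by
  unfold mn
  positivity

lemma dd_nd (x : ℝ) : 4 * nd x ≤ dd x := by
  have h1 : dd (x - round x) = dd x := by
    have := dd_add_int x (-round x)
    push_cast at this
    rw [← sub_eq_add_neg] at this
    exact this
  have h2 : dd |x - round x| = dd (x - round x) := by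
    rcases abs_cases (x - round x) with ⟨h, _⟩ | ⟨h, _⟩
    · rw [h]
    · rw [h, dd_neg]
  have h3 : |x - round x| ≤ 1 / 2 := abs_sub_round x
  have h4 := dd_ge (abs_nonneg (x - round x)) (by linarith)
  rw [h2, h1] at h4
  unfold nd
  have h5 : min |x - round x| (1 - |x - round x|) = |x - round x| := min_eq_left (by linarith)
  rw [h5] at h4
  exact h4

lemma geo (V m : ℕ) (hm : m ≤ V) (x c : ℝ) : ‖∑ s ∈ range m, ee (c + s * x)‖ ≤ mn V x := by
  set S : ℂ := ∑ s ∈ range m, ee (c + s * x) with hS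
  have h1 : ‖S‖ ≤ V := by
    refine (norm_sum_le _ _).trans ?_
    simp only [norm_ee, sum_const, card_range, nsmul_eq_mul, mul_one]
    exact_mod_cast hm
  have h2 : dd x * ‖S‖ ≤ 2 := by
    have h3 : (1 - ee x) * S = ee c * (1 - ee x ^ m) := by
      rw [hS]
      have h4 : ∑ s ∈ range m, ee (c + s * x) = ee c * ∑ s ∈ range m, ee x ^ s := by
        rw [mul_sum]
        exact sum_congr rfl fun s _ => by rw [ee_add, ee_pow]
      rw [h4]
      have h5 := mul_geom_sum (ee x) m
      linear_combination (-ee c) * h5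
    have h6 : dd x * ‖S‖ = ‖(1 - ee x) * S‖ := by rw [norm_mul]; rfl
    rw [h6, h3, norm_mul, norm_ee, one_mul]
    refine (norm_sub_le _ _).trans ?_
    rw [norm_pow, norm_ee, one_pow, norm_one]
    norm_num
  have h3 : nd x * ‖S‖ ≤ 1 := by
    have := mul_le_mul_of_nonneg_right (dd_nd x) (norm_nonneg S)
    have h0 := mul_nonneg (nd_nonneg x) (norm_nonneg S)
    nlinarith
  unfold mn
  rw [le_div_iff₀ (lt_of_lt_of_le one_pos (le_max_left _ _))]
  rcases le_total 1 (V * nd x) with h4 | h4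
  · rw [max_eq_right h4]
    have hV : (0 : ℝ) ≤ V := Nat.cast_nonneg V
    calc ‖S‖ * (V * nd x) = V * (nd x * ‖S‖) := by ring
      _ ≤ V * 1 := mul_le_mul_of_nonneg_left h3 hV
      _ = V := mul_one _
  · rw [max_eq_left h4, mul_one]
    exact h1

/-! ### the progression -/

/-- the terms of a residue class in an interval -/
lemma prog (T1 T2 D τ : ℕ) (hD : 1 ≤ D) (h12 : T1 ≤ T2) (hτ : τ < D) :
    ∃ s1 n : ℕ, n ≤ (T2 - T1) / D + 1 ∧ (∀ F : ℕ → ℂ,
      ∑ t ∈ (Ioc T1 T2).filter (fun t => t % D = τ), F t =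
        ∑ i ∈ range n, F (τ + D * (s1 + i))) := by
  have hex : ∀ a : ℕ, ∃ s : ℕ, a < τ + D * s := fun a => ⟨a + 1, by nlinarith⟩
  have hmono : ∀ a s s' : ℕ, a < τ + D * s → s ≤ s' → a < τ + D * s' := by
    intro a s s' h1 h2
    have := Nat.mul_le_mul_left D h2
    omega
  set s1 := Nat.find (hex T1) with hs1
  set s2 := Nat.find (hex T2) with hs2
  have e1 : T1 < τ + D * s1 := Nat.find_spec (hex T1)
  have e2 : T2 < τ + D * s2 := Nat.find_spec (hex T2)
  have f1 : ∀ s, T1 < τ + D * s → s1 ≤ s := fun s h => Nat.find_min' (hex T1) h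
  have f2 : ∀ s, T2 < τ + D * s → s2 ≤ s := fun s h => Nat.find_min' (hex T2) h
  have h21 : s1 ≤ s2 := f1 s2 (by omega)
  refine ⟨s1, s2 - s1, ?_, ?_⟩
  · rcases h21.eq_or_lt with h | h
    · rw [h, Nat.sub_self]
      exact Nat.zero_le _
    · have h3 : τ + D * (s2 - 1) ≤ T2 := by
        by_contra h4
        have := f2 (s2 - 1) (by omega)
        omega
      have h5 : D * (s2 - 1 - s1) ≤ T2 - T1 := by
        rw [Nat.mul_sub]
        omega
      have h6 : s2 - 1 - s1 ≤ (T2 - T1) / D := by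
        rw [Nat.le_div_iff_mul_le (by omega), mul_comm]
        exact h5
      omega
  · intro F
    symm
    refine sum_nbij' (fun i => τ + D * (s1 + i)) (fun t => t / D - s1) ?_ ?_ ?_ ?_ ?_
    · intro i hi
      rw [mem_range] at hi
      rw [mem_filter, mem_Ioc]
      refine ⟨⟨hmono T1 s1 _ e1 (by omega), ?_⟩, ?_⟩
      · by_contra h4
        have := f2 (s1 + i) (by omega)
        omega
      · rw [Nat.add_mul_mod_self_left, Nat.mod_eq_of_lt hτ]
    · intro t ht
      rw [mem_filter, mem_Ioc] at ht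
      rw [mem_range]
      have h7 := Nat.div_add_mod t D
      rw [ht.2] at h7
      have h8 : s1 ≤ t / D := f1 _ (by omega)
      have h9 : t / D < s2 := by
        by_contra h10
        have := hmono T2 s2 (t / D) e2 (by omega)
        omega
      omega
    · intro i _
      have h7 : (τ + D * (s1 + i)) / D = s1 + i := by
        rw [Nat.add_mul_div_left _ _ (by omega), Nat.div_eq_of_lt hτ, zero_add]
      rw [h7]
      omega
    · intro t ht
      rw [mem_filter, mem_Ioc] at ht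
      have h7 := Nat.div_add_mod t D
      rw [ht.2] at h7
      have h8 : s1 ≤ t / D := f1 _ (by omega)
      have h9 : s1 + (t / D - s1) = t / D := by omega
      rw [h9]
      omega
    · intro i _
      rfl

lemma ee_conj (x : ℝ) : (starRingEnd ℂ) (ee x) = ee (-x) := by
  unfold ee
  rw [← Complex.exp_conj]
  congr 1
  simp only [map_mul, Complex.conj_I, Complex.conj_ofReal, map_ofNat]
  push_cast
  ring

theorem t_WY : S_WY := by
  intro a0 b0 T1 T2 T D τ α hD h12 hT
  have hWD : 0 ≤ WD a0 T D α := by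
    unfold WD
    have : 0 ≤ ∑ j ∈ Icc 1 (T / D + 1), mn (T / D + 1) (2 * a0 * (D : ℝ) ^ 2 * j * α) :=
      sum_nonneg fun _ _ => mn_nonneg _ _
    positivity
  rcases Nat.lt_or_ge τ D with hτ | hτ
  swap
  · have h1 : (Ioc T1 T2).filter (fun t => t % D = τ) = ∅ := by
      rw [filter_eq_empty_iff]
      intro t _ h
      have := Nat.mod_lt t (by omega : 0 < D)
      omega
    rw [h1, sum_empty, norm_zero]
    simpa using hWD
  obtain ⟨s1, n, hn, hF⟩ := prog T1 T2 D τ hD h12 hτ
  have hnV : n ≤ T / D + 1 := hn.trans (Nat.succ_le_succ (Nat.div_le_div_right hT))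
  rw [hF (fun t => ee ((gz a0 b0 t : ℝ) * α))]
  rw [vdc (fun i => ee ((gz a0 b0 ((τ + D * (s1 + i) : ℕ) : ℤ) : ℝ) * α)) (fun _ => norm_ee _) n]
  unfold WD
  have h1 : (∑ j ∈ range n, ∑ i ∈ range (n - (j + 1)),
      ee ((gz a0 b0 ((τ + D * (s1 + (i + (j + 1))) : ℕ) : ℤ) : ℝ) * α) *
        (starRingEnd ℂ) (ee ((gz a0 b0 ((τ + D * (s1 + i) : ℕ) : ℤ) : ℝ) * α))).re ≤
      ∑ j ∈ Icc 1 (T / D + 1), mn (T / D + 1) (2 * a0 * (D : ℝ) ^ 2 * j * α) := by
    refine (Complex.re_le_norm _).trans ((norm_sum_le _ _).trans ?_)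
    have h2 : ∀ j ∈ range n, ‖∑ i ∈ range (n - (j + 1)),
        ee ((gz a0 b0 ((τ + D * (s1 + (i + (j + 1))) : ℕ) : ℤ) : ℝ) * α) *
        (starRingEnd ℂ) (ee ((gz a0 b0 ((τ + D * (s1 + i) : ℕ) : ℤ) : ℝ) * α))‖ ≤
        mn (T / D + 1) (2 * a0 * (D : ℝ) ^ 2 * ((j + 1 : ℕ) : ℝ) * α) := by
      intro j _
      have h3 := geo (T / D + 1) (n - (j + 1)) (by omega) (2 * a0 * (D : ℝ) ^ 2 * ((j + 1 : ℕ) : ℝ) * α)
        ((a0 * (2 * (τ + D * s1) * D * (j + 1) + D ^ 2 * (j + 1) ^ 2) + b0 * D * (j + 1)) * α)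
      refine le_trans (le_of_eq ?_) h3
      congr 1
      refine sum_congr rfl fun i _ => ?_
      rw [ee_conj, ← ee_add]
      congr 1
      unfold gz
      push_cast
      ring
    refine (sum_le_sum h2).trans ?_
    have h4 : ∑ j ∈ range n, mn (T / D + 1) (2 * a0 * (D : ℝ) ^ 2 * ((j + 1 : ℕ) : ℝ) * α) ≤
        ∑ j ∈ range (T / D + 1), mn (T / D + 1) (2 * a0 * (D : ℝ) ^ 2 * ((j + 1 : ℕ) : ℝ) * α) :=
      sum_le_sum_of_subset_of_nonneg (range_subset_range.2 hnV) fun _ _ _ => mn_nonneg _ _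
    refine h4.trans (le_of_eq ?_)
    refine sum_nbij' (fun j => j + 1) (fun j => j - 1) ?_ ?_ ?_ ?_ ?_
    · intro j hj
      rw [mem_range] at hj
      rw [mem_Icc]
      omega
    · intro j hj
      rw [mem_Icc] at hj
      rw [mem_range]
      omega
    · intro j _
      simp
    · intro j hj
      rw [mem_Icc] at hj
      exact Nat.sub_add_cancel hj.1
    · intro j _
      rfl
  have h2 : (n : ℝ) ≤ ((T / D + 1 : ℕ) : ℝ) := by exact_mod_cast hnV
  linarith

end Pool.Agent.L0h89.CL
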